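import Pool.Agent.helper87.X4.Spec

/-! Row x4:D4: derivations of the tensor of order 4. -/

set_option autoImplicit false

namespace Pool.Agent.X4

open Matrix Pool.Agent.PL

variable {N : ℕ}

theorem D4_ms (P : Matrix (Fin N) (Fin N) ℚ) (d c i m : Fin N) :
    (P * Matrix.single d c (1 : ℚ)) i m = if c = m then P i d else 0 := by
  rw [Matrix.mul_apply]
  simp only [Matrix.single_apply]
  rw [Finset.sum_eq_single d]
  · by_cases h : c = m
    · simp [h]
    · simp [h]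
  · intro b _ hb
    rw [if_neg, mul_zero]
    exact fun h => hb h.1.symm
  · intro h
    exact absurd (Finset.mem_univ d) h

theorem D4_sm (P : Matrix (Fin N) (Fin N) ℚ) (l k c d : Fin N) :
    ((Matrix.single l k (1 : ℚ) : Matrix (Fin N) (Fin N) ℚ) * P) c d
      = if l = c then P k d else 0 := by
  rw [Matrix.mul_apply]
  simp only [Matrix.single_apply]
  rw [Finset.sum_eq_single k]
  · by_cases h : l = c
    · simp [h]
    · simp [h]
  · intro b _ hb
    rw [if_neg, zero_mul]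
    exact fun h => hb h.2.symm
  · intro h
    exact absurd (Finset.mem_univ k) h

theorem D4_lin (L : Matrix (Fin N) (Fin N) ℚ →ₗ[ℚ] Matrix (Fin N) (Fin N) ℚ) (c : Fin N → ℚ)
    (M : Fin N → Matrix (Fin N) (Fin N) ℚ) (P : Matrix (Fin N) (Fin N) ℚ) (a b : Fin N) :
    ∑ j, c j * (L (M j) * P) a b = (L (∑ j, c j • M j) * P) a b := by
  rw [map_sum, Matrix.sum_mul, Matrix.sum_apply]
  apply Finset.sum_congr rfl
  intro j _
  rw [map_smul, Matrix.smul_mul, Matrix.smul_apply, smul_eq_mul]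

theorem D4_tau (Q : Matrix (Fin N) (Fin N) ℚ)
    (L : Matrix (Fin N) (Fin N) ℚ →ₗ[ℚ] Matrix (Fin N) (Fin N) ℚ) (I : Fin 4 → Fin N) :
    tau Q L I = (L (Q⁻¹ * Matrix.single (I 3) (I 2) (1 : ℚ)) * Q⁻¹) (I 0) (I 1) := by
  have h1 : Q⁻¹ * Matrix.single (I 3) (I 2) (1 : ℚ)
      = ∑ k, Q⁻¹ k (I 3) • Matrix.single k (I 2) (1 : ℚ) := by
    ext i m
    rw [D4_ms, Matrix.sum_apply]
    simp only [Matrix.smul_apply, Matrix.single_apply, smul_eq_mul]
    rw [Finset.sum_eq_single i]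
    · by_cases h : I 2 = m
      · simp [h]
      · simp [h]
    · intro b _ hb
      rw [if_neg, mul_zero]
      exact fun h => hb h.1
    · intro h
      exact absurd (Finset.mem_univ i) h
  rw [h1, ← D4_lin]
  unfold tau
  apply Finset.sum_congr rfl
  intro k _
  rw [Finset.sum_eq_single (I 2)]
  · rw [D4_sm, if_pos rfl, mul_comm]
  · intro l _ hl
    rw [D4_sm, if_neg hl, mul_zero]
  · intro h
    exact absurd (Finset.mem_univ _) h

theorem D4_der (Z : Matrix (Fin N) (Fin N) ℚ) (t : Tn N 4 ℚ) (I : Fin 4 → Fin N) :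
    der Z 4 t I = ∑ j, Z (I 0) j * t (Function.update I 0 j)
      + ∑ j, Z (I 1) j * t (Function.update I 1 j)
      + ∑ j, Z (I 2) j * t (Function.update I 2 j)
      + ∑ j, Z (I 3) j * t (Function.update I 3 j) := by
  unfold der
  rw [Fin.sum_univ_four]

theorem D4_s3 (P Z : Matrix (Fin N) (Fin N) ℚ) (d c : Fin N) :
    ∑ j, Z c j • (P * Matrix.single d j (1 : ℚ)) = P * Matrix.single d c (1 : ℚ) * Z := by
  ext i m
  rw [Matrix.sum_apply, Matrix.mul_apply]
  simp only [Matrix.smul_apply, D4_ms, smul_eq_mul]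
  rw [Finset.sum_eq_single m, Finset.sum_eq_single c]
  · simp [mul_comm]
  · intro b _ hb
    rw [if_neg (Ne.symm hb), zero_mul]
  · intro h
    exact absurd (Finset.mem_univ _) h
  · intro b _ hb
    rw [if_neg hb, mul_zero]
  · intro h
    exact absurd (Finset.mem_univ _) h

theorem D4_s4 (P Z : Matrix (Fin N) (Fin N) ℚ) (d c : Fin N) :
    ∑ j, Z d j • (P * Matrix.single j c (1 : ℚ)) = P * Zᵀ * Matrix.single d c (1 : ℚ) := by
  ext i m
  rw [Matrix.sum_apply, D4_ms, Matrix.mul_apply]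
  simp only [Matrix.smul_apply, D4_ms, smul_eq_mul, Matrix.transpose_apply]
  by_cases h : c = m
  · simp [h, mul_comm]
  · simp [h]

theorem D4_main (Q : Matrix (Fin N) (Fin N) ℚ) (hQ : IsUnit Q)
    (L : Matrix (Fin N) (Fin N) ℚ →ₗ[ℚ] Matrix (Fin N) (Fin N) ℚ) (Z : Matrix (Fin N) (Fin N) ℚ)
    (hZ : Zᵀ * Q + Q * Z = 0) (I : Fin 4 → Fin N) (Y : Matrix (Fin N) (Fin N) ℚ)
    (hY : Y = Q⁻¹ * Matrix.single (I 3) (I 2) (1 : ℚ)) :
    der Z 4 (tau Q L) I = ((Z * L Y - L Y * Z - L (Z * Y - Y * Z)) * Q⁻¹) (I 0) (I 1) := by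
  have hd : IsUnit Q.det := (Matrix.isUnit_iff_isUnit_det Q).mp hQ
  have hi1 : Q * Q⁻¹ = 1 := Matrix.mul_nonsing_inv Q hd
  have hi2 : Q⁻¹ * Q = 1 := Matrix.nonsing_inv_mul Q hd
  have hQZ : Q⁻¹ * Zᵀ = -(Z * Q⁻¹) := by
    have h1 : Q⁻¹ * (Zᵀ * Q + Q * Z) * Q⁻¹ = 0 := by rw [hZ]; simp
    have h2 : Q⁻¹ * (Zᵀ * Q + Q * Z) * Q⁻¹ = Q⁻¹ * Zᵀ * (Q * Q⁻¹) + Q⁻¹ * Q * Z * Q⁻¹ := by
      noncomm_ring
    rw [h2, hi1, hi2] at h1
    simp only [mul_one, one_mul] at h1
    exact eq_neg_of_add_eq_zero_left h1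
  rw [D4_der]
  have e0 : ∑ j, Z (I 0) j * tau Q L (Function.update I 0 j) = (Z * (L Y * Q⁻¹)) (I 0) (I 1) := by
    rw [Matrix.mul_apply]
    apply Finset.sum_congr rfl
    intro j _
    rw [D4_tau, hY]
    simp
  have e1 : ∑ j, Z (I 1) j * tau Q L (Function.update I 1 j)
      = (L Y * Q⁻¹ * Zᵀ) (I 0) (I 1) := by
    rw [Matrix.mul_apply]
    apply Finset.sum_congr rfl
    intro j _
    rw [D4_tau, hY, Matrix.transpose_apply, mul_comm]
    simp
  have e2 : ∑ j, Z (I 2) j * tau Q L (Function.update I 2 j)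
      = (L (Y * Z) * Q⁻¹) (I 0) (I 1) := by
    rw [hY, ← D4_s3, ← D4_lin]
    apply Finset.sum_congr rfl
    intro j _
    rw [D4_tau]
    simp
  have e3 : ∑ j, Z (I 3) j * tau Q L (Function.update I 3 j)
      = (L (Q⁻¹ * Zᵀ * Matrix.single (I 3) (I 2) (1 : ℚ)) * Q⁻¹) (I 0) (I 1) := by
    rw [← D4_s4, ← D4_lin]
    apply Finset.sum_congr rfl
    intro j _
    rw [D4_tau]
    simp
  rw [e0, e1, e2, e3, hQZ]
  have e4 : -(Z * Q⁻¹) * Matrix.single (I 3) (I 2) (1 : ℚ) = -(Z * Y) := by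
    rw [hY]; noncomm_ring
  have e5 : L Y * Q⁻¹ * Zᵀ = -(L Y * Z * Q⁻¹) := by
    rw [mul_assoc, hQZ]; noncomm_ring
  rw [e4, e5, ← Matrix.add_apply, ← Matrix.add_apply, ← Matrix.add_apply, map_neg, map_sub]
  refine congrFun (congrFun ?_ (I 0)) (I 1)
  simp only [sub_mul, neg_mul, mul_assoc]
  abel

theorem D4 : D4_stmt := by
  intro N Q hQ L Z hZ
  have hd : IsUnit Q.det := (Matrix.isUnit_iff_isUnit_det Q).mp hQ
  have hi1 : Q * Q⁻¹ = 1 := Matrix.mul_nonsing_inv Q hd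
  have hi2 : Q⁻¹ * Q = 1 := Matrix.nonsing_inv_mul Q hd
  constructor
  · intro h
    -- the linear map `Y ↦ [Z, L Y] - L [Z, Y]` vanishes on the basis
    have hb : ∀ d c : Fin N, Z * L (Q⁻¹ * Matrix.single d c (1 : ℚ))
        - L (Q⁻¹ * Matrix.single d c (1 : ℚ)) * Z
        - L (Z * (Q⁻¹ * Matrix.single d c (1 : ℚ)) - (Q⁻¹ * Matrix.single d c (1 : ℚ)) * Z) = 0 := by
      intro d c
      set Y := Q⁻¹ * Matrix.single d c (1 : ℚ) with hY
      have h1 : (Z * L Y - L Y * Z - L (Z * Y - Y * Z)) * Q⁻¹ = 0 := by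
        ext a b
        have h2 := D4_main Q hQ L Z hZ ![a, b, c, d] Y (by simpa using hY)
        rw [h] at h2
        simpa using h2.symm
      have h3 : (Z * L Y - L Y * Z - L (Z * Y - Y * Z)) * (Q⁻¹ * Q) = 0 := by
        rw [← mul_assoc, h1, zero_mul]
      rw [hi2, mul_one] at h3
      exact h3
    intro Y
    have hYs : Y = ∑ d, ∑ c, (Q * Y) d c • (Q⁻¹ * Matrix.single d c (1 : ℚ)) := by
      have h1 : Y = Q⁻¹ * (Q * Y) := by rw [← mul_assoc, hi2, one_mul]
      conv_lhs => rw [h1, Matrix.matrix_eq_sum_single (Q * Y)]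
      rw [Matrix.mul_sum]
      apply Finset.sum_congr rfl
      intro d _
      rw [Matrix.mul_sum]
      apply Finset.sum_congr rfl
      intro c _
      rw [← Matrix.mul_smul, Matrix.smul_single, smul_eq_mul, mul_one]
    let G : Matrix (Fin N) (Fin N) ℚ →ₗ[ℚ] Matrix (Fin N) (Fin N) ℚ :=
      { toFun := fun Y => Z * L Y - L Y * Z - L (Z * Y - Y * Z)
        map_add' := by
          intro a b
          simp only [map_add, map_sub, mul_add, add_mul]
          abel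
        map_smul' := by
          intro c a
          simp only [map_smul, map_sub, Matrix.mul_smul, Matrix.smul_mul, RingHom.id_apply,
            smul_sub] }
    have hG : G Y = 0 := by
      rw [hYs, map_sum]
      apply Finset.sum_eq_zero
      intro d _
      rw [map_sum]
      apply Finset.sum_eq_zero
      intro c _
      rw [map_smul]
      have : G (Q⁻¹ * Matrix.single d c (1 : ℚ)) = 0 := hb d c
      rw [this, smul_zero]
    have hG' : Z * L Y - L Y * Z - L (Z * Y - Y * Z) = 0 := hG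
    exact (sub_eq_zero.mp hG').symm
  · intro h
    ext I
    rw [D4_main Q hQ L Z hZ I _ rfl, h, sub_self, zero_mul]
    rfl

end Pool.Agent.X4
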